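import Pool.Agent.helper33.QX.SpecA

/-!
# Row qa:ODE (MP_07c750_an): the one variable estimate

With `σ = (ξ e^t)²` the majorant of `σ/(1+σ) w²` is `(2A/R) (σ/(1+σ) - σ/(1+R+σ)) + (2/R) σ w²`,
which needs no case distinction.
-/

set_option autoImplicit false

open scoped MatrixGroups ContDiff Topology UpperHalfPlane
open UpperHalfPlane MeasureTheory Filter Set
open Pool.Agent.QU

namespace Pool.Agent.QX

/-- Cauchy-Schwarz for continuous functions with compact support. -/
private theorem ODE_cs (f g : ℝ → ℝ) (hf : Continuous f) (hfs : HasCompactSupport f)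
    (hg : Continuous g) (hgs : HasCompactSupport g) :
    ∫ t, |f t * g t| ≤ Real.sqrt (∫ t, f t ^ 2) * Real.sqrt (∫ t, g t ^ 2) := by
  have hmf : MemLp (fun t => |f t|) (ENNReal.ofReal 2) (volume : Measure ℝ) := by
    have h1 : Continuous (fun t => |f t|) := hf.abs
    have h2 : HasCompactSupport (fun t => |f t|) := hfs.comp_left (g := fun x => |x|) (by simp)
    exact h1.memLp_of_hasCompactSupport h2
  have hmg : MemLp (fun t => |g t|) (ENNReal.ofReal 2) (volume : Measure ℝ) := by
    have h1 : Continuous (fun t => |g t|) := hg.abs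
    have h2 : HasCompactSupport (fun t => |g t|) := hgs.comp_left (g := fun x => |x|) (by simp)
    exact h1.memLp_of_hasCompactSupport h2
  have h := MeasureTheory.integral_mul_le_Lp_mul_Lq_of_nonneg (μ := (volume : Measure ℝ))
    Real.HolderConjugate.two_two (f := fun t => |f t|) (g := fun t => |g t|)
    (Eventually.of_forall fun t => abs_nonneg _) (Eventually.of_forall fun t => abs_nonneg _) hmf hmg
  have e1 : ∀ f : ℝ → ℝ, (∫ t, |f t| ^ (2 : ℝ)) ^ (1 / (2 : ℝ)) = Real.sqrt (∫ t, f t ^ 2) := by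
    intro f
    rw [Real.sqrt_eq_rpow]
    congr 1
    refine integral_congr_ae (Eventually.of_forall fun t => ?_)
    show |f t| ^ (2 : ℝ) = f t ^ 2
    rw [Real.rpow_two, sq_abs]
  rw [e1, e1] at h
  calc ∫ t, |f t * g t| = ∫ t, |f t| * |g t| := by
        refine integral_congr_ae (Eventually.of_forall fun t => ?_)
        exact abs_mul _ _
    _ ≤ _ := h

/-- the pointwise inequality for the first claim -/
private theorem ODE_pt1 (σ W A R : ℝ) (hσ : 0 ≤ σ) (hW : 0 ≤ W) (hA : 0 ≤ A) (hR : 1 ≤ R)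
    (h : (R - σ) * W ≤ 2 * A) :
    σ / (1 + σ) * W ≤ 2 * A / R * (σ / (1 + σ) - σ / (1 + R + σ)) + 2 / R * (σ * W) := by
  have h1 : 0 < 1 + σ := by linarith
  have h2 : 0 < 1 + R + σ := by linarith
  have h3 : 0 < R := by linarith
  have key : W * (1 + R + σ) * (R - 2 - 2 * σ) ≤ 2 * A * R := by
    rcases le_or_gt (R - 2 - 2 * σ) 0 with hc | hc
    · have : W * (1 + R + σ) * (R - 2 - 2 * σ) ≤ 0 :=
        mul_nonpos_of_nonneg_of_nonpos (by positivity) hc
      have h4 : 0 ≤ 2 * A * R := by positivity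
      linarith
    · have h4 : (1 + R + σ) * (R - 2 - 2 * σ) ≤ R * (R - σ) := by nlinarith
      calc W * (1 + R + σ) * (R - 2 - 2 * σ) = W * ((1 + R + σ) * (R - 2 - 2 * σ)) := by ring
        _ ≤ W * (R * (R - σ)) := mul_le_mul_of_nonneg_left h4 hW
        _ = R * ((R - σ) * W) := by ring
        _ ≤ R * (2 * A) := mul_le_mul_of_nonneg_left h h3.le
        _ = 2 * A * R := by ring
  have e : 2 * A / R * (σ / (1 + σ) - σ / (1 + R + σ)) + 2 / R * (σ * W) - σ / (1 + σ) * W =
      σ * (2 * A * R - W * (1 + R + σ) * (R - 2 - 2 * σ)) / (R * (1 + σ) * (1 + R + σ)) := by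
    field_simp
    ring
  have h5 : 0 ≤ σ * (2 * A * R - W * (1 + R + σ) * (R - 2 - 2 * σ)) / (R * (1 + σ) * (1 + R + σ)) := by
    apply div_nonneg
    · exact mul_nonneg hσ (by linarith)
    · positivity
  linarith

/-- the pointwise inequality for the second claim -/
private theorem ODE_pt2 (σ W V A R : ℝ) (hσ : 0 ≤ σ) (hW : 0 ≤ W) (hR : 1 ≤ R)
    (h : V + (R - σ) * W ≤ 2 * A) :
    σ / (1 + σ) ^ 2 * V ≤ 2 * A * (σ / (1 + σ) ^ 2) + σ * W := by
  have h1 : 0 < (1 + σ) ^ 2 := by positivity
  have h2 : V ≤ 2 * A + σ * W := by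
    have : 0 ≤ R * W := by positivity
    linarith
  have h3 : σ / (1 + σ) ^ 2 ≤ 1 := by
    rw [div_le_one h1]
    nlinarith
  have h4 : 0 ≤ σ / (1 + σ) ^ 2 := by positivity
  have h5 : σ / (1 + σ) ^ 2 * V ≤ σ / (1 + σ) ^ 2 * (2 * A + σ * W) := mul_le_mul_of_nonneg_left h2 h4
  have h6 : σ / (1 + σ) ^ 2 * (σ * W) ≤ 1 * (σ * W) := mul_le_mul_of_nonneg_right h3 (by positivity)
  linarith

private theorem ODE_sig (ξ t : ℝ) : HasDerivAt (fun t => (ξ * Real.exp t) ^ 2) (2 * (ξ * Real.exp t) ^ 2) t := by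
  have h := ((Real.hasDerivAt_exp t).const_mul ξ).pow 2
  have e : ((2 : ℕ) : ℝ) * (ξ * Real.exp t) ^ (2 - 1) * (ξ * Real.exp t) = 2 * (ξ * Real.exp t) ^ 2 := by
    norm_num
    ring
  rw [e] at h
  exact h

theorem ODE : ODE_stmt := by
  intro w ξ R hw hsupp hR A
  -- basic functions
  obtain ⟨r, hr⟩ := hsupp.isCompact.isBounded.subset_closedBall (0 : ℝ)
  set b : ℝ := |r| + 1 with hb
  have hb0 : 0 < b := by positivity
  have hout : ∀ t : ℝ, b ≤ |t| → t ∉ tsupport w := by
    intro t ht hmem
    have := hr hmem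
    rw [mem_closedBall_zero_iff, Real.norm_eq_abs] at this
    have h2 := le_abs_self r
    linarith
  have hw1 : ContDiff ℝ 1 w := hw.of_le (by norm_num)
  have hdw : ContDiff ℝ 1 (deriv w) := by
    have : ContDiff ℝ (1 + 1) w := by
      have e : (1 + 1 : WithTop ℕ∞) = 2 := by norm_num
      rw [e]
      exact hw
    exact (contDiff_succ_iff_deriv.mp this).2.2
  have hwc : Continuous w := hw.continuous
  have hdwc : Continuous (deriv w) := hdw.continuous
  have hddwc : Continuous (deriv (deriv w)) := hdw.continuous_deriv le_rfl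
  have hds : HasCompactSupport (deriv w) := hsupp.deriv
  have hdds : HasCompactSupport (deriv (deriv w)) := hds.deriv
  have ht1 : tsupport (deriv w) ⊆ tsupport w := closure_minimal (support_deriv_subset (f := w)) (isClosed_tsupport w)
  have ht2 : tsupport (deriv (deriv w)) ⊆ tsupport w :=
    (closure_minimal (support_deriv_subset (f := deriv w)) (isClosed_tsupport _)).trans ht1
  have hw0 : ∀ t : ℝ, b ≤ |t| → w t = 0 := fun t ht => image_eq_zero_of_notMem_tsupport (hout t ht)
  have hdw0 : ∀ t : ℝ, b ≤ |t| → deriv w t = 0 := fun t ht =>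
    image_eq_zero_of_notMem_tsupport (fun h => hout t ht (ht1 h))
  set σ : ℝ → ℝ := fun t => (ξ * Real.exp t) ^ 2 with hσ
  have hσ0 : ∀ t, 0 ≤ σ t := fun t => sq_nonneg _
  have hσc : Continuous σ := by
    rw [hσ]
    fun_prop
  set g : ℝ → ℝ := fun t => -deriv (deriv w) t + (ξ * Real.exp t) ^ 2 * w t - R * w t with hg
  have hgc : Continuous g := by
    rw [hg]
    have h1 : Continuous (fun t => (ξ * Real.exp t) ^ 2) := hσc
    exact (hddwc.neg.add (h1.mul hwc)).sub (continuous_const.mul hwc)
  have hgs : HasCompactSupport g := by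
    have h1 : HasCompactSupport (fun t => -deriv (deriv w) t) := hdds.comp_left (g := fun x => -x) (by simp)
    have h2 : HasCompactSupport (fun t => (ξ * Real.exp t) ^ 2 * w t) := hsupp.mul_left
    have h3 : HasCompactSupport (fun t => R * w t) := hsupp.mul_left
    exact (h1.add h2).sub h3
  -- interval integrals
  have hII : ∀ F : ℝ → ℝ, (∀ t, b ≤ |t| → F t = 0) → ∫ t, F t = ∫ t in (-b)..b, F t := by
    intro F hF
    symm
    apply intervalIntegral.integral_eq_integral_of_support_subset
    intro t ht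
    rw [Function.mem_support] at ht
    have h1 : |t| < b := by
      by_contra hc
      exact ht (hF t (not_lt.mp hc))
    rw [abs_lt] at h1
    exact ⟨h1.1, h1.2.le⟩
  have hA0 : 0 ≤ A := by positivity
  have hcs : ∫ t, |deriv w t * g t| ≤ A := ODE_cs (deriv w) g hdwc hds hgc hgs
  -- the energy
  set E : ℝ → ℝ := fun t => deriv w t ^ 2 + (R - σ t) * w t ^ 2 with hE
  have hEd : ∀ t, HasDerivAt E (-2 * (deriv w t * g t) - 2 * (σ t * w t ^ 2)) t := by
    intro t
    have h1 : HasDerivAt w (deriv w t) t := (hw1.differentiable (by norm_num) t).hasDerivAt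
    have h2 : HasDerivAt (deriv w) (deriv (deriv w) t) t := (hdw.differentiable (by norm_num) t).hasDerivAt
    have h3 := (h2.pow 2).add (((ODE_sig ξ t).const_sub R).mul (h1.pow 2))
    have e : ((2 : ℕ) : ℝ) * deriv w t ^ (2 - 1) * deriv (deriv w) t +
        (-(2 * (ξ * Real.exp t) ^ 2) * w t ^ 2 + (R - (ξ * Real.exp t) ^ 2) * (((2 : ℕ) : ℝ) * w t ^ (2 - 1) * deriv w t)) =
        -2 * (deriv w t * g t) - 2 * (σ t * w t ^ 2) := by
      rw [hg, hσ]
      norm_num
      ring
    rw [← e]
    exact h3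
  have hE'c : Continuous (fun t => -2 * (deriv w t * g t) - 2 * (σ t * w t ^ 2)) :=
    (continuous_const.mul (hdwc.mul hgc)).sub (continuous_const.mul (hσc.mul (hwc.pow 2)))
  have hE0 : ∀ t, b ≤ |t| → E t = 0 := by
    intro t ht
    rw [hE]
    simp [hw0 t ht, hdw0 t ht]
  have hEb : E (-b) = 0 := hE0 _ (by rw [abs_neg, abs_of_pos hb0])
  have hEb' : E b = 0 := hE0 _ (by rw [abs_of_pos hb0])
  have hFTC : ∀ t, ∫ s in (-b)..t, (-2 * (deriv w s * g s) - 2 * (σ s * w s ^ 2)) = E t := by
    intro t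
    rw [intervalIntegral.integral_eq_sub_of_hasDerivAt (fun s _ => hEd s) (hE'c.intervalIntegrable _ _), hEb, sub_zero]
  have hIcs : Integrable (fun t => |deriv w t * g t|) := by
    have h1 : Continuous (fun t => |deriv w t * g t|) := (hdwc.mul hgc).abs
    have h2 : HasCompactSupport (fun t => |deriv w t * g t|) :=
      (hds.mul_right (f' := g)).comp_left (g := fun x => |x|) (by simp)
    exact h1.integrable_of_hasCompactSupport h2
  -- E ≤ 2A
  have hEA : ∀ t, E t ≤ 2 * A := by
    intro t
    rcases le_or_gt b |t| with h0 | h0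
    · rw [hE0 t h0]
      positivity
    · rw [abs_lt] at h0
      rw [← hFTC t]
      calc ∫ s in (-b)..t, (-2 * (deriv w s * g s) - 2 * (σ s * w s ^ 2))
          ≤ ∫ s in (-b)..t, 2 * |deriv w s * g s| := by
            refine intervalIntegral.integral_mono_on h0.1.le (hE'c.intervalIntegrable _ _)
              ((hIcs.const_mul 2).intervalIntegrable) (fun s _ => ?_)
            have h1 := neg_abs_le (deriv w s * g s)
            have h2 : 0 ≤ σ s * w s ^ 2 := mul_nonneg (hσ0 s) (sq_nonneg _)
            linarith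
        _ = 2 * ∫ s in (-b)..t, |deriv w s * g s| := by rw [intervalIntegral.integral_const_mul]
        _ ≤ 2 * ∫ s, |deriv w s * g s| := by
            rw [intervalIntegral.integral_of_le h0.1.le]
            refine mul_le_mul_of_nonneg_left ?_ (by norm_num)
            exact setIntegral_le_integral hIcs (Eventually.of_forall fun s => abs_nonneg _)
        _ ≤ 2 * A := by linarith
  -- ∫ σ w² ≤ A
  have hσw : ∫ t in (-b)..b, σ t * w t ^ 2 ≤ A := by
    have h1 := hFTC b
    rw [hEb'] at h1
    have i1 : IntervalIntegrable (fun t => -2 * (deriv w t * g t)) volume (-b) b :=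
      (continuous_const.mul (hdwc.mul hgc)).intervalIntegrable _ _
    have i2 : IntervalIntegrable (fun t => 2 * (σ t * w t ^ 2)) volume (-b) b :=
      (continuous_const.mul (hσc.mul (hwc.pow 2))).intervalIntegrable _ _
    rw [intervalIntegral.integral_sub i1 i2, intervalIntegral.integral_const_mul,
      intervalIntegral.integral_const_mul] at h1
    have h2 : -∫ t in (-b)..b, deriv w t * g t ≤ ∫ t in (-b)..b, |deriv w t * g t| := by
      rw [← intervalIntegral.integral_neg]
      refine intervalIntegral.integral_mono_on (by linarith) ((hdwc.mul hgc).neg.intervalIntegrable _ _)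
        hIcs.intervalIntegrable (fun s _ => neg_le_abs _)
    have h3 : ∫ t in (-b)..b, |deriv w t * g t| = ∫ t, |deriv w t * g t| := by
      symm
      apply hII
      intro t ht
      rw [hdw0 t ht]
      simp
    linarith
  have hpos1 : ∀ t, 0 < 1 + σ t := fun t => by linarith [hσ0 t]
  have hposR : ∀ t, 0 < 1 + R + σ t := fun t => by linarith [hσ0 t]
  -- the two explicit integrals
  have hJ1 : ∫ t in (-b)..b, (σ t / (1 + σ t) - σ t / (1 + R + σ t)) ≤ Real.log (1 + R) / 2 := by
    have hd : ∀ t, HasDerivAt (fun t => (Real.log (1 + σ t) - Real.log (1 + R + σ t)) / 2)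
        (σ t / (1 + σ t) - σ t / (1 + R + σ t)) t := by
      intro t
      have h1 := ((ODE_sig ξ t).const_add 1).log (hpos1 t).ne'
      have h2 := ((ODE_sig ξ t).const_add (1 + R)).log (hposR t).ne'
      have h3 := (h1.sub h2).div_const 2
      have e : (2 * (ξ * Real.exp t) ^ 2 / (1 + (ξ * Real.exp t) ^ 2) -
          2 * (ξ * Real.exp t) ^ 2 / (1 + R + (ξ * Real.exp t) ^ 2)) / 2 =
          σ t / (1 + σ t) - σ t / (1 + R + σ t) := by
        rw [hσ]
        ring
      rw [← e]
      exact h3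
    have hc : Continuous (fun t => σ t / (1 + σ t) - σ t / (1 + R + σ t)) :=
      (hσc.div (continuous_const.add hσc) (fun t => (hpos1 t).ne')).sub
        (hσc.div (continuous_const.add hσc) (fun t => (hposR t).ne'))
    rw [intervalIntegral.integral_eq_sub_of_hasDerivAt (fun s _ => hd s) (hc.intervalIntegrable _ _)]
    have h1 : Real.log (1 + σ b) ≤ Real.log (1 + R + σ b) := Real.log_le_log (hpos1 b) (by linarith)
    have h2 : Real.log (1 + R + σ (-b)) ≤ Real.log (1 + R) + Real.log (1 + σ (-b)) := by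
      rw [← Real.log_mul (by linarith) (hpos1 _).ne']
      apply Real.log_le_log (hposR _)
      nlinarith [hσ0 (-b)]
    linarith
  have hJ2 : ∫ t in (-b)..b, σ t / (1 + σ t) ^ 2 ≤ 1 / 2 := by
    have hd : ∀ t, HasDerivAt (fun t => -(1 / 2) * (1 + σ t)⁻¹) (σ t / (1 + σ t) ^ 2) t := by
      intro t
      have h1 := (((ODE_sig ξ t).const_add 1).inv (hpos1 t).ne').const_mul (-(1 / 2 : ℝ))
      have e : -(1 / 2 : ℝ) * (-(2 * (ξ * Real.exp t) ^ 2) / (1 + (ξ * Real.exp t) ^ 2) ^ 2) =
          σ t / (1 + σ t) ^ 2 := by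
        rw [hσ]
        ring
      rw [← e]
      exact h1
    have hc : Continuous (fun t => σ t / (1 + σ t) ^ 2) :=
      hσc.div ((continuous_const.add hσc).pow 2) (fun t => (pow_pos (hpos1 t) 2).ne')
    rw [intervalIntegral.integral_eq_sub_of_hasDerivAt (fun s _ => hd s) (hc.intervalIntegrable _ _)]
    have h1 : 0 < (1 + σ b)⁻¹ := inv_pos.mpr (hpos1 b)
    have h2 : (1 + σ (-b))⁻¹ ≤ 1 := inv_le_one_of_one_le₀ (by linarith [hσ0 (-b)])
    linarith
  have iσw : IntervalIntegrable (fun t => σ t * w t ^ 2) volume (-b) b :=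
    (hσc.mul (hwc.pow 2)).intervalIntegrable _ _
  constructor
  · -- first claim
    show ∫ t, σ t / (1 + σ t) * w t ^ 2 ≤ (2 * Real.log (1 + R) + 2) / R * A
    rw [hII _ (fun t ht => by rw [hw0 t ht]; simp)]
    have hc1 : Continuous (fun t => σ t / (1 + σ t) * w t ^ 2) :=
      (hσc.div (continuous_const.add hσc) (fun t => (hpos1 t).ne')).mul (hwc.pow 2)
    have hc2 : Continuous (fun t => σ t / (1 + σ t) - σ t / (1 + R + σ t)) :=
      (hσc.div (continuous_const.add hσc) (fun t => (hpos1 t).ne')).sub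
        (hσc.div (continuous_const.add hσc) (fun t => (hposR t).ne'))
    have i1 : IntervalIntegrable (fun t => 2 * A / R * (σ t / (1 + σ t) - σ t / (1 + R + σ t))) volume (-b) b :=
      (continuous_const.mul hc2).intervalIntegrable _ _
    have i2 : IntervalIntegrable (fun t => 2 / R * (σ t * w t ^ 2)) volume (-b) b := iσw.const_mul _
    have hR0 : 0 < R := by linarith
    calc ∫ t in (-b)..b, σ t / (1 + σ t) * w t ^ 2
        ≤ ∫ t in (-b)..b, (2 * A / R * (σ t / (1 + σ t) - σ t / (1 + R + σ t)) + 2 / R * (σ t * w t ^ 2)) := by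
          refine intervalIntegral.integral_mono_on (by linarith) (hc1.intervalIntegrable _ _) (i1.add i2) (fun t _ => ?_)
          refine ODE_pt1 (σ t) (w t ^ 2) A R (hσ0 t) (sq_nonneg _) hA0 hR ?_
          have h1 := hEA t
          have h2 : E t = deriv w t ^ 2 + (R - σ t) * w t ^ 2 := rfl
          have h3 := sq_nonneg (deriv w t)
          linarith
      _ = 2 * A / R * (∫ t in (-b)..b, (σ t / (1 + σ t) - σ t / (1 + R + σ t))) +
          2 / R * ∫ t in (-b)..b, σ t * w t ^ 2 := by
          rw [intervalIntegral.integral_add i1 i2, intervalIntegral.integral_const_mul,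
            intervalIntegral.integral_const_mul]
      _ ≤ 2 * A / R * (Real.log (1 + R) / 2) + 2 / R * A :=
          add_le_add (mul_le_mul_of_nonneg_left hJ1 (by positivity))
            (mul_le_mul_of_nonneg_left hσw (by positivity))
      _ = (Real.log (1 + R) + 2) / R * A := by ring
      _ ≤ (2 * Real.log (1 + R) + 2) / R * A := by
          have hl : 0 ≤ Real.log (1 + R) := Real.log_nonneg (by linarith)
          refine mul_le_mul_of_nonneg_right ?_ hA0
          exact div_le_div_of_nonneg_right (by linarith) hR0.le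
  · -- second claim
    show ∫ t, σ t / (1 + σ t) ^ 2 * deriv w t ^ 2 ≤ 2 * A
    rw [hII _ (fun t ht => by rw [hdw0 t ht]; simp)]
    have hc : Continuous (fun t => σ t / (1 + σ t) ^ 2) :=
      hσc.div ((continuous_const.add hσc).pow 2) (fun t => (pow_pos (hpos1 t) 2).ne')
    have i1 : IntervalIntegrable (fun t => 2 * A * (σ t / (1 + σ t) ^ 2)) volume (-b) b :=
      (continuous_const.mul hc).intervalIntegrable _ _
    calc ∫ t in (-b)..b, σ t / (1 + σ t) ^ 2 * deriv w t ^ 2
        ≤ ∫ t in (-b)..b, (2 * A * (σ t / (1 + σ t) ^ 2) + σ t * w t ^ 2) := by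
          refine intervalIntegral.integral_mono_on (by linarith) ((hc.mul (hdwc.pow 2)).intervalIntegrable _ _)
            (i1.add iσw) (fun t _ => ?_)
          exact ODE_pt2 (σ t) (w t ^ 2) (deriv w t ^ 2) A R (hσ0 t) (sq_nonneg _) hR (hEA t)
      _ = 2 * A * (∫ t in (-b)..b, σ t / (1 + σ t) ^ 2) + ∫ t in (-b)..b, σ t * w t ^ 2 := by
          rw [intervalIntegral.integral_add i1 iσw, intervalIntegral.integral_const_mul]
      _ ≤ 2 * A * (1 / 2) + A :=
          add_le_add (mul_le_mul_of_nonneg_left hJ2 (by positivity)) hσw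
      _ = 2 * A := by ring

end Pool.Agent.QX
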