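import Pool.Agent.helper4.QX.SpecD
import Pool.Agent.helper62.QU.CA1
import Pool.Agent.helper42.QU.CA2
import Pool.Agent.helper93.QU.DXI
import Pool.Agent.helper35.QU.GRN
import Pool.Agent.helper28.QU.TTT
import Pool.Agent.helper45.QU.LAK
import Pool.Agent.helper62.QU.INV
import Pool.Agent.helper62.QU.CVS
import Pool.Agent.helper6.QU.CVB
import Pool.Agent.helper5.QU.COM

/-!
# Row qd:LPA (MP_07c750_an): the Laplace operator commutes with polynomials of the averaging operator
-/

set_option autoImplicit false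

open scoped MatrixGroups ContDiff Topology UpperHalfPlane
open UpperHalfPlane MeasureTheory ProbabilityTheory Filter Set Polynomial
open Pool.Agent.QU Pool.Agent.RP

namespace Pool.Agent.QX

section

variable {E : Type} [NormedAddCommGroup E] [NormedSpace ℝ E]

private theorem LPA_ca1 : CA1_stmt := Pool.Agent.QU.CA1
private theorem LPA_ca2 : CA2_stmt := Pool.Agent.QU.CA2 LPA_ca1
private theorem LPA_inv : INV_stmt := Pool.Agent.QU.INV
private theorem LPA_ttt : TTT_stmt := Pool.Agent.QU.TTT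
private theorem LPA_lak : LAK_stmt := Pool.Agent.QU.LAK LPA_ttt LPA_ca1
private theorem LPA_cvs : CVS_stmt := Pool.Agent.QU.CVS LPA_ttt LPA_ca1 LPA_lak
private theorem LPA_cvb : CVB_stmt := Pool.Agent.QU.CVB LPA_ttt LPA_inv LPA_ca1 LPA_lak
private theorem LPA_grn : GRN_stmt := Pool.Agent.QU.GRN LPA_ca1 LPA_ca2 (Pool.Agent.QU.DXI LPA_inv LPA_ca1)
private theorem LPA_com : COM_stmt := Pool.Agent.QU.COM LPA_ttt LPA_ca1 LPA_lak LPA_grn

private theorem LPA_two : ((1 : ℕ) : WithTop ℕ∞) + 1 = 2 := by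
  rw [Nat.cast_one, one_add_one_eq_two]

private theorem LPA_cd1 {f : ℍ → E} (hf : CD 2 f) : CD 1 f := by
  obtain ⟨-, c1, -⟩ := LPA_ca1 E
  exact c1 f 1 2 (by norm_num) hf

private theorem LPA_cdX {f : ℍ → E} (hf : CD 2 f) : CD 1 (dX f) ∧ CD 1 (dY f) := by
  obtain ⟨-, -, -, -, c4, -⟩ := LPA_ca1 E
  have h := c4 f 1 (by rw [LPA_two]; exact hf)
  rw [Nat.cast_one] at h
  exact h

private theorem LPA_cont {n : WithTop ℕ∞} {f : ℍ → E} (hf : CD n f) : Continuous f := by
  obtain ⟨c0, c1, -⟩ := LPA_ca1 E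
  exact (c0 f).1 (c1 f 0 n (by simp) hf)

private theorem LPA_add {f g : ℍ → E} (hf : CD 2 f) (hg : CD 2 g)
    (z : ℍ) : lap (fun z => f z + g z) z = lap f z + lap g z := by
  obtain ⟨-, -, c2, -, -, c5, -⟩ := LPA_ca1 E
  have hfg : CD 2 (fun z => f z + g z) := c2 f g 2 hf hg
  rw [(LPA_ca2 E _ hfg z).2, (LPA_ca2 E _ hf z).2, (LPA_ca2 E _ hg z).2]
  have hX : dX (fun z => f z + g z) = fun z => dX f z + dX g z :=
    funext fun z => (c5 f g (LPA_cd1 hf) (LPA_cd1 hg) z).1
  have hY : dY (fun z => f z + g z) = fun z => dY f z + dY g z :=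
    funext fun z => (c5 f g (LPA_cd1 hf) (LPA_cd1 hg) z).2
  rw [hX, hY, (c5 (dX f) (dX g) (LPA_cdX hf).1 (LPA_cdX hg).1 z).1,
    (c5 (dY f) (dY g) (LPA_cdX hf).2 (LPA_cdX hg).2 z).2]
  module

private theorem LPA_cdsmul (c : ℝ) {n : WithTop ℕ∞} {f : ℍ → E} (hf : CD n f) :
    CD n (fun z => c • f z) := by
  obtain ⟨-, -, -, c3, -⟩ := LPA_ca1 E
  obtain ⟨-, -, -, -, -, -, -, -, c8, -⟩ := LPA_ca1 ℝ
  exact c3 (fun _ => c) f n (c8 c n) hf

private theorem LPA_smul (c : ℝ) {f : ℍ → E} (hf : CD 2 f)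
    (z : ℍ) : lap (fun z => c • f z) z = c • lap f z := by
  obtain ⟨-, -, -, c3, -, -, c6, -⟩ := LPA_ca1 E
  obtain ⟨-, -, -, -, -, -, -, c7, c8, -⟩ := LPA_ca1 ℝ
  have hc1 : CD 1 (fun _ : ℍ => c) := c8 c 1
  have hcf : CD 2 (fun z => c • f z) := LPA_cdsmul c hf
  have key : ∀ F : ℍ → E, CD 1 F → dX (fun z => c • F z) = (fun z => c • dX F z) ∧
      dY (fun z => c • F z) = (fun z => c • dY F z) := by
    intro F hF
    constructor
    · funext w
      have h := (c6 (fun _ => c) F hc1 hF w).1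
      rw [(c7 c w).1] at h
      simpa using h
    · funext w
      have h := (c6 (fun _ => c) F hc1 hF w).2
      rw [(c7 c w).2] at h
      simpa using h
  rw [(LPA_ca2 E _ hcf z).2, (LPA_ca2 E _ hf z).2, (key f (LPA_cd1 hf)).1, (key f (LPA_cd1 hf)).2,
    (key _ (LPA_cdX hf).1).1, (key _ (LPA_cdX hf).2).2]
  rw [smul_add, smul_sub, smul_neg]

private theorem LPA_sum (s : Finset ℕ) (c : ℕ → ℝ) (n : WithTop ℕ∞) (f : ℕ → ℍ → E)
    (hf : ∀ j, CD n (f j)) : CD n (fun z => ∑ j ∈ s, c j • f j z) := by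
  classical
  obtain ⟨-, -, c2, -, -, -, -, -, c8, -⟩ := LPA_ca1 E
  induction s using Finset.induction_on with
  | empty =>
    simp only [Finset.sum_empty]
    exact c8 0 n
  | insert a s ha ih =>
    simp only [Finset.sum_insert ha]
    exact c2 _ _ n (LPA_cdsmul (c a) (hf a)) ih

private theorem LPA_lapsum (s : Finset ℕ) (c : ℕ → ℝ) (f : ℕ → ℍ → E)
    (hf : ∀ j, CD 2 (f j)) (z : ℍ) :
    lap (fun z => ∑ j ∈ s, c j • f j z) z = ∑ j ∈ s, c j • lap (f j) z := by
  classical
  induction s using Finset.induction_on with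
  | empty =>
    simp only [Finset.sum_empty]
    have h := LPA_smul (0 : ℝ) (hf 0) z
    simp only [zero_smul] at h
    exact h
  | insert a s ha ih =>
    simp only [Finset.sum_insert ha]
    rw [LPA_add (LPA_cdsmul (c a) (hf a)) (LPA_sum s c 2 f hf) z, ih, LPA_smul (c a) (hf a) z]

private theorem LPA_cs (s : Finset ℕ) (c : ℕ → ℝ) (f : ℕ → ℍ → E)
    (hf : ∀ j, HasCompactSupport (f j)) : HasCompactSupport (fun z => ∑ j ∈ s, c j • f j z) := by
  classical
  induction s using Finset.induction_on with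
  | empty =>
    simp only [Finset.sum_empty]
    exact HasCompactSupport.zero
  | insert a s ha ih =>
    simp only [Finset.sum_insert ha]
    have h1 : HasCompactSupport (fun z => c a • f a z) :=
      (hf a).comp_left (g := fun x => c a • x) (by simp)
    exact h1.add ih

end

theorem LPA (hCVI : CVI_stmt) : LPA_stmt := by
  intro E _ _ _ κ κa p μ₀ χ hκ hκa hχ
  obtain ⟨-, -, -, hrkL, hrkc⟩ := LPA_lak
  obtain ⟨-, b2, b3, -, b5, b6, -⟩ := LPA_cvb E
  obtain ⟨-, c1, -⟩ := LPA_ca1 E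
  -- the iterates of continuous functions are continuous
  have hIc : ∀ (f : ℍ → E), Continuous f → ∀ j : ℕ, Continuous ((conv κ)^[j] f) := by
    intro f hf j
    induction j with
    | zero => exact hf
    | succ j ih =>
      rw [Function.iterate_succ_apply']
      exact b6 κ _ hκ ih
  have hI : ∀ j : ℕ, CD ∞ ((conv κ)^[j] (conv κa χ)) := by
    intro j
    cases j with
    | zero => exact hCVI E κa χ hκa hχ
    | succ j =>
      rw [Function.iterate_succ_apply']
      exact hCVI E κ _ hκ (hIc _ (LPA_cont (hCVI E κa χ hκa hχ)) j)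
  have h2i : (2 : WithTop ℕ∞) ≤ ∞ := WithTop.coe_le_coe.2 (le_top : (2 : ℕ∞) ≤ ⊤)
  have hI2 : ∀ j : ℕ, CD 2 ((conv κ)^[j] (conv κa χ)) := fun j => c1 _ 2 ∞ h2i (hI j)
  -- the Laplace operator of the iterates
  have hL : ∀ j : ℕ, lap ((conv κ)^[j] (conv κa χ)) = (conv κ)^[j] (conv (LL κa) χ) := by
    intro j
    induction j with
    | zero =>
      funext z
      exact (LPA_cvs E κa χ hκa hχ).2.2.2 z
    | succ j ih =>
      funext z
      rw [Function.iterate_succ_apply', Function.iterate_succ_apply', ← ih]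
      rw [(LPA_cvs E κ _ hκ (hIc _ (LPA_cont (hCVI E κa χ hκa hχ)) j)).2.2.2 z]
      exact (LPA_com E κ _ hκ (hI2 j) z).symm
  -- linearity of the iterates
  have hlin : ∀ (f g : ℍ → E), Continuous f → Continuous g → ∀ (j : ℕ) (z : ℍ),
      (conv κ)^[j] (fun w => f w - μ₀ • g w) z = (conv κ)^[j] f z - μ₀ • (conv κ)^[j] g z := by
    intro f g hf hg j
    induction j with
    | zero =>
      intro z
      rfl
    | succ j ih =>
      intro z
      rw [Function.iterate_succ_apply', Function.iterate_succ_apply', Function.iterate_succ_apply']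
      have h1 : (conv κ)^[j] (fun w => f w - μ₀ • g w) =
          fun w => (1 : ℝ) • (conv κ)^[j] f w + (-μ₀) • (conv κ)^[j] g w := by
        funext w
        rw [ih w, one_smul, _root_.neg_smul, sub_eq_add_neg]
      rw [h1, b2 κ _ _ 1 (-μ₀) z hκ (hIc f hf j) (hIc g hg j), one_smul, _root_.neg_smul, sub_eq_add_neg]
  refine ⟨?_, ?_, ?_⟩
  · exact LPA_sum _ (fun j => p.coeff j) ∞ (fun j => (conv κ)^[j] (conv κa χ)) hI
  · intro hs
    refine LPA_cs _ (fun j => p.coeff j) (fun j => (conv κ)^[j] (conv κa χ)) (fun j => ?_)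
    show HasCompactSupport ((conv κ)^[j] (conv κa χ))
    induction j with
    | zero => exact b5 κa χ hκa hs
    | succ j ih =>
      rw [Function.iterate_succ_apply']
      exact b5 κ _ hκ ih
  · intro z
    have h1 : lap (pA κ p (conv κa χ)) z = ∑ j ∈ Finset.range (p.natDegree + 1),
        p.coeff j • (conv κ)^[j] (conv (LL κa) χ) z := by
      have h := LPA_lapsum (Finset.range (p.natDegree + 1)) (fun j => p.coeff j)
        (fun j => (conv κ)^[j] (conv κa χ)) hI2 z
      refine Eq.trans h ?_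
      refine Finset.sum_congr rfl (fun j _ => ?_)
      rw [hL j]
    have h2 : conv (fun t => LL κa t - μ₀ * κa t) χ = fun w => conv (LL κa) χ w - μ₀ • conv κa χ w := by
      funext w
      have h := b3 (LL κa) κa χ 1 (-μ₀) w (hrkL κa hκa) hκa hχ
      rw [one_smul, _root_.neg_smul, ← sub_eq_add_neg] at h
      rw [← h]
      congr 1
      funext t
      ring
    rw [h1, h2]
    unfold pA
    rw [Finset.smul_sum, ← Finset.sum_sub_distrib]
    refine Finset.sum_congr rfl (fun j _ => ?_)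
    rw [hlin _ _ (b6 (LL κa) χ (hrkL κa hκa) hχ) (b6 κa χ hκa hχ) j z, smul_sub, smul_comm μ₀]

end Pool.Agent.QX
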